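import Pool.Agent.Helper276.VdC

set_option autoImplicit false
open Filter Topology MeasureTheory Set

namespace Pool.Agent.Helper276.CogenEst

open Pool.Agent.Helper276.VdC

lemma amplitude_cont {a b : ℝ} (ha : 0 < a) (hab : a ≤ b) {f : ℝ → ℂ} (hf : Continuous f)
    {B : ℝ} (hB : ∀ x ∈ Icc a b, ‖∫ y in a..x, f y‖ ≤ B) (c : ℝ) (hc : 0 ≤ c) (m : ℤ)
    (hle : ∀ x ∈ Icc a b, c * x ^ m ≤ 1) :
    ‖∫ y in a..b, ((c * y ^ m : ℝ) : ℂ) * f y‖ ≤ 3 * B := by
  have hu : uIcc a b = Icc a b := uIcc_of_le hab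
  have hB0 : 0 ≤ B := le_trans (norm_nonneg _) (hB a (left_mem_Icc.2 hab))
  have hne : ∀ x ∈ Icc a b, x ≠ 0 := fun x hx => (lt_of_lt_of_le ha hx.1).ne'
  have hpos : ∀ x ∈ Icc a b, 0 < x := fun x hx => lt_of_lt_of_le ha hx.1
  have hA : ∀ x ∈ Icc a b, HasDerivAt (fun y : ℝ => c * y ^ m) (c * (m * x ^ (m - 1))) x := by
    intro x hx
    exact (hasDerivAt_zpow m x (Or.inl (hne x hx))).const_mul c
  have hAc : ContinuousOn (fun x : ℝ => c * (m * x ^ (m - 1))) (Icc a b) := by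
    apply ContinuousOn.mul continuousOn_const
    apply ContinuousOn.mul continuousOn_const
    intro x hx
    exact (continuousAt_zpow₀ x (m - 1) (Or.inl (hne x hx))).continuousWithinAt
  have hU : ∀ x ∈ uIcc a b, HasDerivAt (fun y : ℝ => ((c * y ^ m : ℝ) : ℂ))
      ((c * (m * x ^ (m - 1)) : ℝ) : ℂ) x := by
    intro x hx
    rw [hu] at hx
    exact (hA x hx).ofReal_comp
  have hV : ∀ x ∈ uIcc a b, HasDerivAt (fun x => ∫ y in a..x, f y) (f x) x := by
    intro x _
    exact intervalIntegral.integral_hasDerivAt_right (hf.intervalIntegrable _ _)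
      (hf.stronglyMeasurableAtFilter _ _) hf.continuousAt
  have hparts := intervalIntegral.integral_mul_deriv_eq_deriv_mul hU hV
    (by
      apply ContinuousOn.intervalIntegrable
      rw [hu]
      exact Complex.continuous_ofReal.comp_continuousOn hAc)
    (hf.intervalIntegrable _ _)
  rw [hparts, intervalIntegral.integral_same, mul_zero, sub_zero]
  have hlow : ∀ x ∈ Icc a b, 0 ≤ c * x ^ m := fun x hx => mul_nonneg hc (zpow_nonneg (hpos x hx).le m)
  have h1 : ‖((c * b ^ m : ℝ) : ℂ) * ∫ y in a..b, f y‖ ≤ B := by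
    have hb := right_mem_Icc.2 hab
    rw [norm_mul, Complex.norm_real, Real.norm_of_nonneg (hlow b hb)]
    have := hB b hb
    have h3 := hle b hb
    have h4 := hlow b hb
    nlinarith [norm_nonneg (∫ y in a..b, f y)]
  -- the sign of the derivative is constant
  have h2 : ‖∫ x in a..b, ((c * (m * x ^ (m - 1)) : ℝ) : ℂ) * ∫ y in a..x, f y‖ ≤ 2 * B := by
    have h5 : ‖∫ x in a..b, ((c * (m * x ^ (m - 1)) : ℝ) : ℂ) * ∫ y in a..x, f y‖ ≤
        ∫ x in a..b, |c * (m * x ^ (m - 1))| * B := by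
      apply intervalIntegral.norm_integral_le_of_norm_le hab
      · refine Eventually.of_forall (fun x hx => ?_)
        rw [norm_mul, Complex.norm_real, Real.norm_eq_abs]
        exact mul_le_mul_of_nonneg_left (hB x ⟨hx.1.le, hx.2⟩) (abs_nonneg _)
      · apply ContinuousOn.intervalIntegrable
        rw [hu]
        exact hAc.abs.mul continuousOn_const
    refine h5.trans ?_
    rw [intervalIntegral.integral_mul_const]
    apply mul_le_mul_of_nonneg_right _ hB0
    have hFTC : ∫ x in a..b, c * (m * x ^ (m - 1)) = c * b ^ m - c * a ^ m := by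
      apply intervalIntegral.integral_eq_sub_of_hasDerivAt (f := fun y : ℝ => c * y ^ m)
      · intro x hx
        rw [hu] at hx
        exact hA x hx
      · apply ContinuousOn.intervalIntegrable
        rw [hu]
        exact hAc
    have ha1 := hle a (left_mem_Icc.2 hab)
    have ha2 := hlow a (left_mem_Icc.2 hab)
    have hb1 := hle b (right_mem_Icc.2 hab)
    have hb2 := hlow b (right_mem_Icc.2 hab)
    rcases le_total 0 m with hm | hm
    · have h6 : ∫ x in a..b, |c * (m * x ^ (m - 1))| = ∫ x in a..b, c * (m * x ^ (m - 1)) := by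
        apply intervalIntegral.integral_congr
        intro x hx
        rw [hu] at hx
        apply abs_of_nonneg
        have : (0 : ℝ) ≤ m := by exact_mod_cast hm
        have := zpow_nonneg (hpos x hx).le (m - 1)
        positivity
      rw [h6, hFTC]
      linarith
    · have h6 : ∫ x in a..b, |c * (m * x ^ (m - 1))| = ∫ x in a..b, -(c * (m * x ^ (m - 1))) := by
        apply intervalIntegral.integral_congr
        intro x hx
        rw [hu] at hx
        apply abs_of_nonpos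
        have h7 : (m : ℝ) ≤ 0 := by exact_mod_cast hm
        have h8 := zpow_nonneg (hpos x hx).le (m - 1)
        have h9 : (m : ℝ) * x ^ (m - 1) ≤ 0 := mul_nonpos_of_nonpos_of_nonneg h7 h8
        exact mul_nonpos_of_nonneg_of_nonpos hc h9
      rw [h6, intervalIntegral.integral_neg, hFTC]
      linarith
  refine (norm_sub_le _ _).trans ?_
  linarith

lemma amplitude {a b : ℝ} (ha : 0 < a) (hab : a ≤ b) {f : ℝ → ℂ} (hf : ContinuousOn f (Icc a b))
    {B : ℝ} (hB : ∀ x ∈ Icc a b, ‖∫ y in a..x, f y‖ ≤ B) (c : ℝ) (hc : 0 ≤ c) (m : ℤ)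
    (hle : ∀ x ∈ Icc a b, c * x ^ m ≤ 1) :
    ‖∫ y in a..b, ((c * y ^ m : ℝ) : ℂ) * f y‖ ≤ 3 * B := by
  set g : ℝ → ℂ := IccExtend hab ((Icc a b).domRestrict f) with hg
  have hgc : Continuous g := by
    apply Continuous.Icc_extend'
    exact continuousOn_iff_continuous_domRestrict.1 hf
  have hgf : ∀ x ∈ Icc a b, g x = f x := by
    intro x hx
    rw [hg, IccExtend_of_mem _ _ hx]
    rfl
  have h1 : ∀ x ∈ Icc a b, ∫ y in a..x, f y = ∫ y in a..x, g y := by
    intro x hx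
    apply intervalIntegral.integral_congr
    intro y hy
    rw [uIcc_of_le hx.1] at hy
    exact (hgf y ⟨hy.1, hy.2.trans hx.2⟩).symm
  have h2 : ∫ y in a..b, ((c * y ^ m : ℝ) : ℂ) * f y = ∫ y in a..b, ((c * y ^ m : ℝ) : ℂ) * g y := by
    apply intervalIntegral.integral_congr
    intro y hy
    rw [uIcc_of_le hab] at hy
    simp only [hgf y hy]
  rw [h2]
  apply amplitude_cont ha hab hgc _ c hc m hle
  intro x hx
  rw [← h1 x hx]
  exact hB x hx

/-- The phase. -/
noncomputable def ph (t s : ℝ) (n : ℕ) (y : ℝ) : ℝ := t * y - s / y - 2 * n * Real.arctan y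

noncomputable def ph1 (t s : ℝ) (n : ℕ) (y : ℝ) : ℝ := t + s / y ^ 2 - 2 * n * (1 / (1 + y ^ 2))

noncomputable def ph2 (s : ℝ) (n : ℕ) (y : ℝ) : ℝ := -2 * s / y ^ 3 + 4 * n * y / (1 + y ^ 2) ^ 2

lemma ph_deriv (t s : ℝ) (n : ℕ) {y : ℝ} (hy : 0 < y) : HasDerivAt (ph t s n) (ph1 t s n y) y := by
  have h1 : HasDerivAt (fun y : ℝ => t * y) (t * 1) y := (hasDerivAt_id' y).const_mul t
  have h2 : HasDerivAt (fun y : ℝ => s / y) ((0 * y - s * 1) / y ^ 2) y :=
    (hasDerivAt_const y s).fun_div (hasDerivAt_id' y) hy.ne'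
  have h3 : HasDerivAt (fun y : ℝ => 2 * n * Real.arctan y) (2 * n * (1 / (1 + y ^ 2))) y :=
    (Real.hasDerivAt_arctan y).const_mul _
  have h4 := (h1.fun_sub h2).fun_sub h3
  refine h4.congr_deriv ?_
  unfold ph1
  ring

lemma ph1_deriv (t s : ℝ) (n : ℕ) {y : ℝ} (hy : 0 < y) : HasDerivAt (ph1 t s n) (ph2 s n y) y := by
  have hsq : HasDerivAt (fun y : ℝ => y ^ 2) (2 * y) y := by
    simpa using hasDerivAt_pow 2 y
  have h2 : HasDerivAt (fun y : ℝ => s / y ^ 2) ((0 * y ^ 2 - s * (2 * y)) / (y ^ 2) ^ 2) y :=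
    (hasDerivAt_const y s).fun_div hsq (by positivity)
  have h4 : HasDerivAt (fun y : ℝ => 1 + y ^ 2) (2 * y) y := hsq.const_add 1
  have h3 : HasDerivAt (fun y : ℝ => 2 * n * (1 / (1 + y ^ 2)))
      (2 * n * ((0 * (1 + y ^ 2) - 1 * (2 * y)) / (1 + y ^ 2) ^ 2)) y :=
    ((hasDerivAt_const y (1 : ℝ)).fun_div h4 (by positivity)).const_mul _
  have h5 := (h2.const_add t).fun_sub h3
  refine h5.congr_deriv ?_
  unfold ph2
  field_simp
  ring

lemma ph2_cont (s : ℝ) (n : ℕ) : ContinuousOn (ph2 s n) (Icc (1 / 4) (1 / 2)) := by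
  unfold ph2
  apply ContinuousOn.add
  · apply ContinuousOn.div continuousOn_const (by fun_prop)
    intro x hx
    have : 0 < x := by linarith [hx.1]
    positivity
  · apply ContinuousOn.div (by fun_prop) (by fun_prop)
    intro x hx
    positivity

lemma slope (s : ℝ) (n : ℕ) : ∀ x ∈ Icc (1 / 4 : ℝ) (1 / 2), ∀ y ∈ Icc (1 / 4 : ℝ) (1 / 2), x ≤ y →
    ((n : ℝ) / 10) * (y - x) ≤ y ^ 3 * ph2 s n y - x ^ 3 * ph2 s n x := by
  intro x hx y hy hxy
  have hx0 : 0 < x := by linarith [hx.1]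
  have hy0 : 0 < y := by linarith [hy.1]
  have hW : ∀ z : ℝ, 0 < z → z ^ 3 * ph2 s n z = -2 * s + 4 * n * (z ^ 2 / (1 + z ^ 2)) ^ 2 := by
    intro z hz
    unfold ph2
    field_simp
  rw [hW x hx0, hW y hy0]
  set p := x ^ 2 / (1 + x ^ 2) with hp
  set q := y ^ 2 / (1 + y ^ 2) with hq
  have hqp : (8 / 25 : ℝ) * (y - x) ≤ q - p := by
    have h1 : q - p = (y - x) * ((y + x) / ((1 + y ^ 2) * (1 + x ^ 2))) := by
      rw [hp, hq]
      field_simp
      ring
    rw [h1, mul_comm]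
    apply mul_le_mul_of_nonneg_left _ (by linarith)
    rw [div_le_div_iff₀ (by norm_num) (by positivity)]
    have h2 : y ^ 2 ≤ 1 / 4 := by nlinarith [hy.2]
    have h3 : x ^ 2 ≤ 1 / 4 := by nlinarith [hx.2]
    have h4 : (1 + y ^ 2) * (1 + x ^ 2) ≤ (5 / 4) * (5 / 4) := by
      apply mul_le_mul (by linarith) (by linarith) (by positivity) (by norm_num)
    have h5 : (1 / 2 : ℝ) ≤ y + x := by linarith [hx.1, hy.1]
    nlinarith
  have hp1 : (1 / 17 : ℝ) ≤ p := by
    rw [hp, div_le_div_iff₀ (by norm_num) (by positivity)]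
    have : (1 / 4 : ℝ) ^ 2 ≤ x ^ 2 := pow_le_pow_left₀ (by norm_num) hx.1 2
    nlinarith
  have hq1 : (1 / 17 : ℝ) ≤ q := by
    rw [hq, div_le_div_iff₀ (by norm_num) (by positivity)]
    have : (1 / 4 : ℝ) ^ 2 ≤ y ^ 2 := pow_le_pow_left₀ (by norm_num) hy.1 2
    nlinarith
  have h6 : q ^ 2 - p ^ 2 = (q - p) * (q + p) := by ring
  have h7 : (8 / 25 : ℝ) * (y - x) * (2 / 17) ≤ (q - p) * (q + p) := by
    apply mul_le_mul hqp (by linarith) (by norm_num)
    have : 0 ≤ (8 / 25 : ℝ) * (y - x) := by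
      have : 0 ≤ y - x := by linarith
      positivity
    linarith
  have hn : (0 : ℝ) ≤ n := Nat.cast_nonneg n
  have h8 : (n : ℝ) * ((8 / 25 : ℝ) * (y - x) * (2 / 17)) ≤ n * (q ^ 2 - p ^ 2) := by
    rw [h6]
    exact mul_le_mul_of_nonneg_left h7 hn
  have h9 : 0 ≤ (n : ℝ) * (y - x) := mul_nonneg hn (by linarith)
  nlinarith

/-- uniform smallness of the oscillatory integrals on all initial subintervals -/
lemma osc (t s : ℝ) {n : ℕ} (hn : 0 < n) {η : ℝ} (hη : 0 < η) {x : ℝ} (hx : x ∈ Icc (1 / 4 : ℝ) (1 / 2)) :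
    ‖∫ y in (1 / 4 : ℝ)..x, Complex.exp (Complex.I * (ph t s n y : ℂ))‖ ≤
      2 * (8 / Real.sqrt ((n : ℝ) / 10 * η)) + 2 * η := by
  have hn' : (0 : ℝ) < n := by exact_mod_cast hn
  have hsub : Icc (1 / 4 : ℝ) x ⊆ Icc (1 / 4 : ℝ) (1 / 2) := Icc_subset_Icc le_rfl hx.2
  have hpos : ∀ y ∈ Icc (1 / 4 : ℝ) x, 0 < y := fun y hy => by linarith [hy.1]
  apply third_test (ψ1 := ph1 t s n) (ψ2 := ph2 s n) (W := fun y => y ^ 3) hx.1 (by positivity) hη
    (fun y hy => ph_deriv t s n (hpos y hy)) (fun y hy => ph1_deriv t s n (hpos y hy))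
    ((ph2_cont s n).mono hsub) (by fun_prop)
  · intro y hy
    have := hpos y hy
    positivity
  · intro y hy
    exact pow_le_one₀ (hpos y hy).le (by linarith [(hsub hy).2])
  · intro y hy z hz hyz
    exact slope s n y (hsub hy) z (hsub hz) hyz

lemma osc_small {ε : ℝ} (hε : 0 < ε) : ∃ N : ℕ, ∀ n : ℕ, N ≤ n → ∀ t s : ℝ,
    ∀ x ∈ Icc (1 / 4 : ℝ) (1 / 2),
    ‖∫ y in (1 / 4 : ℝ)..x, Complex.exp (Complex.I * (ph t s n y : ℂ))‖ ≤ ε := by
  have h1 : Tendsto (fun n : ℕ => 2 * (8 / Real.sqrt ((n : ℝ) / 10 * (ε / 4)))) atTop (𝓝 (2 * 0)) := by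
    apply Tendsto.const_mul
    have h2 : Tendsto (fun n : ℕ => (n : ℝ) / 10 * (ε / 4)) atTop atTop := by
      apply Tendsto.atTop_mul_const (by positivity)
      exact tendsto_natCast_atTop_atTop.atTop_div_const (by norm_num)
    exact (Real.tendsto_sqrt_atTop.comp h2).const_div_atTop 8
  rw [mul_zero] at h1
  obtain ⟨N, hN⟩ := eventually_atTop.1 (h1.eventually (ge_mem_nhds (half_pos hε)))
  refine ⟨N + 1, fun n hn t s x hx => ?_⟩
  refine (osc t s (by omega : 0 < n) (by positivity : 0 < ε / 4) hx).trans ?_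
  have := hN n (by omega)
  linarith

end Pool.Agent.Helper276.CogenEst
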