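import Pool.Agent.Helper276.VdC

set_option autoImplicit false
open Filter Topology MeasureTheory Set

namespace Pool.Agent.Helper276.Rajchman

open Pool.Agent.Helper276.VdC

noncomputable section

/-- the phase of the Cayley transform -/
def phi (x : ℝ) : ℝ := Real.pi + 2 * Real.arctan x

lemma phi_cont : Continuous phi := by
  unfold phi
  exact continuous_const.add (continuous_const.mul Real.continuous_arctan)

/-- first derivative -/
def phi1 (x : ℝ) : ℝ := 2 * (1 / (1 + x ^ 2))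

/-- second derivative -/
def phi2 (x : ℝ) : ℝ := -(4 * x / (1 + x ^ 2) ^ 2)

lemma phi_deriv (x : ℝ) : HasDerivAt phi (phi1 x) x := by
  unfold phi phi1
  exact ((Real.hasDerivAt_arctan x).const_mul 2).const_add _

lemma phi1_deriv (x : ℝ) : HasDerivAt phi1 (phi2 x) x := by
  have hsq : HasDerivAt (fun y : ℝ => y ^ 2) (2 * x) x := by
    simpa using hasDerivAt_pow 2 x
  have h4 : HasDerivAt (fun y : ℝ => 1 + y ^ 2) (2 * x) x := hsq.const_add 1
  have h3 : HasDerivAt (fun y : ℝ => 2 * (1 / (1 + y ^ 2)))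
      (2 * ((0 * (1 + x ^ 2) - 1 * (2 * x)) / (1 + x ^ 2) ^ 2)) x :=
    ((hasDerivAt_const x (1 : ℝ)).fun_div h4 (by positivity)).const_mul _
  refine h3.congr_deriv ?_
  unfold phi2
  ring

lemma phi2_cont : Continuous phi2 := by
  unfold phi2
  apply Continuous.neg
  apply Continuous.div (by fun_prop) (by fun_prop)
  intro x
  positivity

lemma phi2_bound {x : ℝ} (hx : x ∈ Icc (1 : ℝ) 2) : phi2 x ≤ -(4 / 25) := by
  unfold phi2
  rw [neg_le_neg_iff, div_le_div_iff₀ (by norm_num) (by positivity)]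
  have h1 := hx.1
  have h2 := hx.2
  have h3 : (1 + x ^ 2) ^ 2 ≤ 5 ^ 2 := by
    apply pow_le_pow_left₀ (by positivity)
    nlinarith
  nlinarith

/-- uniform oscillation bound on initial subintervals -/
lemma osc (t : ℝ) (m : ℤ) (hm : m ≠ 0) {x : ℝ} (hx : x ∈ Icc (1 : ℝ) 2) :
    ‖∫ y in (1 : ℝ)..x, Complex.exp (Complex.I * ((t * y + m * phi y : ℝ) : ℂ))‖ ≤
      8 / Real.sqrt ((|m| : ℤ) * (4 / 25)) := by
  have h1 : ∀ y : ℝ, HasDerivAt (fun y => t * y + m * phi y) (t + m * phi1 y) y := by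
    intro y
    have h := ((hasDerivAt_id' y).const_mul t).fun_add ((phi_deriv y).const_mul (m : ℝ))
    refine h.congr_deriv ?_
    ring
  have h2 : ∀ y : ℝ, HasDerivAt (fun y => t + m * phi1 y) (m * phi2 y) y := fun y =>
    ((phi1_deriv y).const_mul (m : ℝ)).const_add _
  have h3 : Continuous (fun y => (m : ℝ) * phi2 y) := continuous_const.mul phi2_cont
  have hm' : (0 : ℝ) < ((|m| : ℤ) : ℝ) := by exact_mod_cast abs_pos.2 hm
  have hsub : Icc (1 : ℝ) x ⊆ Icc (1 : ℝ) 2 := Icc_subset_Icc le_rfl hx.2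
  rcases lt_or_gt_of_ne hm with hneg | hpos
  · apply second_test_pos (ψ1 := fun y => t + m * phi1 y) (ψ2 := fun y => m * phi2 y) hx.1
      (by positivity) (fun y _ => h1 y) (fun y _ => h2 y) h3.continuousOn
    intro y hy
    have h4 := phi2_bound (hsub hy)
    have h5 : ((|m| : ℤ) : ℝ) = -(m : ℝ) := by
      rw [abs_of_neg hneg]
      push_cast
      ring
    have h6 : (m : ℝ) < 0 := by exact_mod_cast hneg
    rw [h5]
    nlinarith
  · apply second_test_neg (ψ1 := fun y => t + m * phi1 y) (ψ2 := fun y => m * phi2 y) hx.1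
      (by positivity) (fun y _ => h1 y) (fun y _ => h2 y) h3.continuousOn
    intro y hy
    have h4 := phi2_bound (hsub hy)
    have h5 : ((|m| : ℤ) : ℝ) = (m : ℝ) := by
      rw [abs_of_pos hpos]
    have h6 : (0 : ℝ) < m := by exact_mod_cast hpos
    rw [h5]
    nlinarith

/-- oscillation bound for pure exponentials -/
lemma osc_lin (t : ℝ) (ht : t ≠ 0) {x : ℝ} (hx : x ∈ Icc (1 : ℝ) 2) :
    ‖∫ y in (1 : ℝ)..x, Complex.exp (Complex.I * ((t * y : ℝ) : ℂ))‖ ≤ 4 / |t| := by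
  apply first_test (ψ1 := fun _ => t) (ψ2 := fun _ => 0) hx.1 (abs_pos.2 ht)
  · intro y _
    simpa using (hasDerivAt_id' y).const_mul t
  · intro y _
    exact hasDerivAt_const y t
  · exact continuousOn_const
  · intro y _
    exact le_rfl
  · intro y _
    exact le_rfl

/-- the constant of a density -/
def cst (ρ : ℝ → ℝ) : ℝ := |ρ 2| + ∫ y in (1 : ℝ)..2, |deriv ρ y|

lemma cst_nonneg (ρ : ℝ → ℝ) : 0 ≤ cst ρ := by
  unfold cst
  have : 0 ≤ ∫ y in (1 : ℝ)..2, |deriv ρ y| :=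
    intervalIntegral.integral_nonneg (by norm_num) (fun y _ => abs_nonneg _)
  positivity

lemma amp {ρ : ℝ → ℝ} (hρ : ContDiff ℝ 1 ρ) {f : ℝ → ℂ} (hf : Continuous f) {B : ℝ}
    (hB : ∀ x ∈ Icc (1 : ℝ) 2, ‖∫ y in (1 : ℝ)..x, f y‖ ≤ B) :
    ‖∫ y in (1 : ℝ)..2, (ρ y : ℂ) * f y‖ ≤ B * cst ρ := by
  have hu : uIcc (1 : ℝ) 2 = Icc 1 2 := uIcc_of_le (by norm_num)
  have hB0 : 0 ≤ B := le_trans (norm_nonneg _) (hB 1 (left_mem_Icc.2 (by norm_num)))
  have hd : ∀ x, HasDerivAt ρ (deriv ρ x) x := fun x =>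
    ((hρ.differentiable (by norm_num)) x).hasDerivAt
  have hdc : Continuous (deriv ρ) := hρ.continuous_deriv le_rfl
  have hU : ∀ x ∈ uIcc (1 : ℝ) 2, HasDerivAt (fun y : ℝ => (ρ y : ℂ)) ((deriv ρ x : ℝ) : ℂ) x :=
    fun x _ => (hd x).ofReal_comp
  have hV : ∀ x ∈ uIcc (1 : ℝ) 2, HasDerivAt (fun x => ∫ y in (1 : ℝ)..x, f y) (f x) x := by
    intro x _
    exact intervalIntegral.integral_hasDerivAt_right (hf.intervalIntegrable _ _)
      (hf.stronglyMeasurableAtFilter _ _) hf.continuousAt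
  have hparts := intervalIntegral.integral_mul_deriv_eq_deriv_mul hU hV
    ((Complex.continuous_ofReal.comp hdc).intervalIntegrable _ _)
    (hf.intervalIntegrable _ _)
  rw [hparts, intervalIntegral.integral_same, mul_zero, sub_zero]
  have h1 : ‖(ρ 2 : ℂ) * ∫ y in (1 : ℝ)..2, f y‖ ≤ |ρ 2| * B := by
    rw [norm_mul, Complex.norm_real, Real.norm_eq_abs]
    exact mul_le_mul_of_nonneg_left (hB 2 (right_mem_Icc.2 (by norm_num))) (abs_nonneg _)
  have h2 : ‖∫ x in (1 : ℝ)..2, ((deriv ρ x : ℝ) : ℂ) * ∫ y in (1 : ℝ)..x, f y‖ ≤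
      (∫ x in (1 : ℝ)..2, |deriv ρ x|) * B := by
    rw [← intervalIntegral.integral_mul_const]
    apply intervalIntegral.norm_integral_le_of_norm_le (by norm_num)
    · refine Eventually.of_forall (fun x hx => ?_)
      rw [norm_mul, Complex.norm_real, Real.norm_eq_abs]
      exact mul_le_mul_of_nonneg_left (hB x ⟨hx.1.le, hx.2⟩) (abs_nonneg _)
    · apply Continuous.intervalIntegrable
      exact hdc.abs.mul continuous_const
  refine (norm_sub_le _ _).trans ?_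
  unfold cst
  linarith

/-- the basic integrals -/
def II (ρ : ℝ → ℝ) (t : ℝ) (m : ℤ) : ℂ :=
  ∫ y in (1 : ℝ)..2, (ρ y : ℂ) * Complex.exp (Complex.I * ((t * y + m * phi y : ℝ) : ℂ))

lemma II_bound {ρ : ℝ → ℝ} (hρ : ContDiff ℝ 1 ρ) (t : ℝ) (m : ℤ) (hm : m ≠ 0) :
    ‖II ρ t m‖ ≤ 8 / Real.sqrt ((|m| : ℤ) * (4 / 25)) * cst ρ := by
  apply amp hρ
  · have := phi_cont
    fun_prop
  · intro x hx
    exact osc t m hm hx

lemma II_zero_bound {ρ : ℝ → ℝ} (hρ : ContDiff ℝ 1 ρ) (t : ℝ) (ht : t ≠ 0) :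
    ‖II ρ t 0‖ ≤ 4 / |t| * cst ρ := by
  have h : II ρ t 0 = ∫ y in (1 : ℝ)..2, (ρ y : ℂ) * Complex.exp (Complex.I * ((t * y : ℝ) : ℂ)) := by
    unfold II
    simp
  rw [h]
  apply amp hρ
  · fun_prop
  · intro x hx
    exact osc_lin t ht hx

lemma II_small {ρ : ℝ → ℝ} (hρ : ContDiff ℝ 1 ρ) {ε : ℝ} (hε : 0 < ε) :
    ∃ N : ℕ, 0 < N ∧ ∀ m : ℤ, (N : ℤ) ≤ |m| → ∀ t : ℝ, ‖II ρ t m‖ ≤ ε := by
  have h1 : Tendsto (fun n : ℕ => 8 / Real.sqrt ((n : ℝ) * (4 / 25)) * cst ρ) atTop (𝓝 (0 * cst ρ)) := by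
    apply Tendsto.mul_const
    have h2 : Tendsto (fun n : ℕ => (n : ℝ) * (4 / 25)) atTop atTop :=
      tendsto_natCast_atTop_atTop.atTop_mul_const (by norm_num)
    exact (Real.tendsto_sqrt_atTop.comp h2).const_div_atTop 8
  rw [zero_mul] at h1
  obtain ⟨N, hN⟩ := eventually_atTop.1 (h1.eventually (ge_mem_nhds hε))
  refine ⟨N + 1, by omega, fun m hm t => ?_⟩
  have hm0 : m ≠ 0 := by
    rintro rfl
    simp at hm
    omega
  refine (II_bound hρ t m hm0).trans ?_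
  obtain ⟨k, hk⟩ : ∃ k : ℕ, |m| = (k : ℤ) := ⟨m.natAbs, Int.abs_eq_natAbs m⟩
  rw [hk] at hm ⊢
  have h3 := hN k (by omega)
  exact_mod_cast h3

/-- one step of the Riesz product -/
lemma II_step {ρ : ℝ → ℝ} (hρ : Continuous ρ) (n : ℕ) (t : ℝ) (m : ℤ) :
    II (fun y => ρ y * (1 + Real.cos (n * phi y))) t m =
      II ρ t m + (1 / 2) * (II ρ t (m + n) + II ρ t (m - n)) := by
  have hc : ∀ k : ℤ, IntervalIntegrable (fun y => (ρ y : ℂ) *
      Complex.exp (Complex.I * ((t * y + k * phi y : ℝ) : ℂ))) volume 1 2 := by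
    intro k
    apply Continuous.intervalIntegrable
    have := phi_cont
    fun_prop
  unfold II
  rw [← intervalIntegral.integral_add (hc _) (hc _), ← intervalIntegral.integral_const_mul,
    ← intervalIntegral.integral_add (hc _) (((hc _).add (hc _)).const_mul _)]
  apply intervalIntegral.integral_congr
  intro y _
  simp only
  have h1 : ((Real.cos (n * phi y) : ℝ) : ℂ) = (Complex.exp (Complex.I * ((n * phi y : ℝ) : ℂ)) +
      Complex.exp (-(Complex.I * ((n * phi y : ℝ) : ℂ)))) / 2 := by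
    rw [Complex.ofReal_cos, Complex.cos, mul_comm Complex.I, neg_mul]
  have h2 : Complex.exp (Complex.I * ((t * y + ((m + n : ℤ) : ℝ) * phi y : ℝ) : ℂ)) =
      Complex.exp (Complex.I * ((t * y + m * phi y : ℝ) : ℂ)) * Complex.exp (Complex.I * ((n * phi y : ℝ) : ℂ)) := by
    rw [← Complex.exp_add]
    congr 1
    push_cast
    ring
  have h3 : Complex.exp (Complex.I * ((t * y + ((m - n : ℤ) : ℝ) * phi y : ℝ) : ℂ)) =
      Complex.exp (Complex.I * ((t * y + m * phi y : ℝ) : ℂ)) * Complex.exp (-(Complex.I * ((n * phi y : ℝ) : ℂ))) := by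
    rw [← Complex.exp_add]
    congr 1
    push_cast
    ring
  rw [h2, h3, Complex.ofReal_mul, Complex.ofReal_add, h1, Complex.ofReal_one]
  ring

/-- densities with the current frequency -/
abbrev St : Type := {p : (ℝ → ℝ) × ℕ // ContDiff ℝ 1 p.1 ∧ ∀ x, 0 ≤ p.1 x}

/-- the relation between consecutive stages -/
def Rel (k : ℕ) (p q : St) : Prop :=
  p.1.2 < q.1.2 ∧
  (∀ (t : ℝ) (m : ℤ), |m| ≤ (p.1.2 : ℤ) → ‖II q.1.1 t m - II p.1.1 t m‖ ≤ 1 / 2 ^ (k + 4)) ∧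
  ‖II q.1.1 0 (-(q.1.2 : ℤ)) - (1 / 2) * II p.1.1 0 0‖ ≤ 1 / 2 ^ (k + 4)

lemma phi_contDiff : ContDiff ℝ 1 phi := by
  unfold phi
  exact contDiff_const.add (contDiff_const.mul Real.contDiff_arctan)

lemma step (k : ℕ) (p : St) : ∃ q : St, Rel k p q := by
  obtain ⟨⟨ρ, M⟩, hρ, hρ0⟩ := p
  have hε : (0 : ℝ) < 1 / 2 ^ (k + 5) := by positivity
  obtain ⟨N, hN0, hN⟩ := II_small hρ hε
  set n : ℕ := M + N with hn
  have hkk : (1 : ℝ) / 2 ^ (k + 4) = 2 * (1 / 2 ^ (k + 5)) := by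
    rw [pow_succ 2 (k + 4)]
    field_simp
  refine ⟨⟨(fun y => ρ y * (1 + Real.cos (n * phi y)), n), ?_, ?_⟩, ?_, ?_, ?_⟩
  · apply hρ.mul
    apply contDiff_const.add
    exact Real.contDiff_cos.comp (contDiff_const.mul phi_contDiff)
  · intro x
    apply mul_nonneg (hρ0 x)
    linarith [Real.neg_one_le_cos (n * phi x)]
  · simp only [hn]
    omega
  · intro t m hm
    simp only at hm ⊢
    rw [II_step hρ.continuous, add_sub_cancel_left]
    have hm2 := abs_le.1 hm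
    have h1 := hN (m + n) (by rw [le_abs]; left; rw [hn]; push_cast; linarith) t
    have h2 := hN (m - n) (by rw [le_abs]; right; rw [hn]; push_cast; linarith) t
    rw [norm_mul]
    have h3 := norm_add_le (II ρ t (m + n)) (II ρ t (m - n))
    have h4 : ‖(1 / 2 : ℂ)‖ = 1 / 2 := by simp
    rw [h4, hkk]
    linarith
  · simp only
    rw [II_step hρ.continuous]
    have h0 : (-(n : ℤ)) + n = 0 := by ring
    rw [h0]
    have h5 : II ρ 0 (-(n : ℤ)) + 1 / 2 * (II ρ 0 0 + II ρ 0 (-(n : ℤ) - n)) - 1 / 2 * II ρ 0 0 =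
        II ρ 0 (-(n : ℤ)) + 1 / 2 * II ρ 0 (-(n : ℤ) - n) := by ring
    rw [h5]
    have h1 := hN (-(n : ℤ)) (by rw [abs_neg, Nat.abs_cast, hn]; push_cast; linarith) 0
    have h2 := hN (-(n : ℤ) - n) (by rw [le_abs]; right; rw [hn]; push_cast; linarith) 0
    have h3 := norm_add_le (II ρ 0 (-(n : ℤ))) (1 / 2 * II ρ 0 (-(n : ℤ) - n))
    have h4 : ‖(1 / 2 : ℂ)‖ = 1 / 2 := by simp
    rw [norm_mul, h4] at h3
    rw [hkk]
    have h6 := norm_nonneg (II ρ 0 (-(n : ℤ) - n))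
    linarith

/-- the sequence of stages -/
def seq : ℕ → St
  | 0 => ⟨(fun _ => 1, 0), contDiff_const, fun _ => zero_le_one⟩
  | (k + 1) => Classical.choose (step k (seq k))

lemma seq_rel (k : ℕ) : Rel k (seq k) (seq (k + 1)) := Classical.choose_spec (step k (seq k))

/-- densities -/
def rho (k : ℕ) : ℝ → ℝ := (seq k).1.1

/-- frequencies -/
def nn (k : ℕ) : ℕ := (seq k).1.2

lemma rho_contDiff (k : ℕ) : ContDiff ℝ 1 (rho k) := (seq k).2.1

lemma rho_nonneg (k : ℕ) (x : ℝ) : 0 ≤ rho k x := (seq k).2.2 x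

lemma nn_strictMono : StrictMono nn := strictMono_nat_of_lt_succ (fun k => (seq_rel k).1)

lemma cauchy (j : ℕ) (t : ℝ) (m : ℤ) (hm : |m| ≤ (nn j : ℤ)) (k : ℕ) (hk : j ≤ k) :
    ‖II (rho k) t m - II (rho j) t m‖ ≤ 1 / 2 ^ (j + 3) - 1 / 2 ^ (k + 3) := by
  induction k, hk using Nat.le_induction with
  | base => simp
  | succ k hk ih =>
    have h1 := (seq_rel k).2.1 t m (by
      have : (nn j : ℤ) ≤ nn k := by exact_mod_cast nn_strictMono.monotone hk
      exact hm.trans this)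
    change ‖II (rho (k + 1)) t m - II (rho k) t m‖ ≤ 1 / 2 ^ (k + 4) at h1
    have h2 : II (rho (k + 1)) t m - II (rho j) t m =
        (II (rho (k + 1)) t m - II (rho k) t m) + (II (rho k) t m - II (rho j) t m) := by ring
    rw [h2]
    refine (norm_add_le _ _).trans ?_
    have h3 : (1 : ℝ) / 2 ^ (k + 3) = 2 * (1 / 2 ^ (k + 4)) := by
      rw [pow_succ 2 (k + 3)]
      field_simp
    have h4 : (1 : ℝ) / 2 ^ (k + 1 + 3) = 1 / 2 ^ (k + 4) := by
      congr 1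
    rw [h4]
    linarith

lemma cauchy' (j : ℕ) (t : ℝ) (m : ℤ) (hm : |m| ≤ (nn j : ℤ)) (k : ℕ) (hk : j ≤ k) :
    ‖II (rho k) t m - II (rho j) t m‖ ≤ 1 / 2 ^ (j + 3) := by
  have := cauchy j t m hm k hk
  have h : (0 : ℝ) < 1 / 2 ^ (k + 3) := by positivity
  linarith

lemma II_init : II (rho 0) 0 0 = 1 := by
  unfold II
  have : ∀ y : ℝ, (rho 0 y : ℂ) * Complex.exp (Complex.I * ((0 * y + ((0 : ℤ) : ℝ) * phi y : ℝ) : ℂ)) = 1 := by
    intro y
    have : rho 0 y = 1 := rfl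
    rw [this]
    simp
  simp_rw [this]
  simp
  norm_num

lemma mass_close (k : ℕ) : ‖II (rho k) 0 0 - 1‖ ≤ 1 / 8 := by
  have := cauchy' 0 0 0 (by simp) k (Nat.zero_le k)
  rw [II_init] at this
  norm_num at this
  linarith

lemma big (j : ℕ) : ‖II (rho (j + 1)) 0 (-(nn (j + 1) : ℤ)) - 1 / 2‖ ≤ 1 / 8 := by
  have h1 := (seq_rel j).2.2
  change ‖II (rho (j + 1)) 0 (-(nn (j + 1) : ℤ)) - (1 / 2) * II (rho j) 0 0‖ ≤ 1 / 2 ^ (j + 4) at h1
  have h2 := mass_close j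
  have h3 : II (rho (j + 1)) 0 (-(nn (j + 1) : ℤ)) - 1 / 2 =
      (II (rho (j + 1)) 0 (-(nn (j + 1) : ℤ)) - (1 / 2) * II (rho j) 0 0) +
        (1 / 2) * (II (rho j) 0 0 - 1) := by ring
  rw [h3]
  refine (norm_add_le _ _).trans ?_
  rw [norm_mul]
  have h4 : ‖(1 / 2 : ℂ)‖ = 1 / 2 := by simp
  rw [h4]
  have h5 : (1 : ℝ) / 2 ^ (j + 4) ≤ 1 / 16 := by
    apply one_div_le_one_div_of_le (by norm_num)
    have : (2 : ℝ) ^ 4 ≤ 2 ^ (j + 4) := pow_le_pow_right₀ (by norm_num) (by omega)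
    linarith
  linarith

end

end Pool.Agent.Helper276.Rajchman
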