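import Mathlib

set_option autoImplicit false
open Filter Topology MeasureTheory Set

namespace Pool.Agent.Helper276.VdC

/-- Splitting an integral around a bad point `c`. -/
lemma split_bound {F : ℝ → ℂ} {a b c η B : ℝ} (hF : ContinuousOn F (Icc a b))
    (h1 : ∀ x ∈ Icc a b, ‖F x‖ ≤ 1) (hη : 0 ≤ η) (hB : 0 ≤ B) (hc : c ∈ Icc a b)
    (hL : a ≤ c - η → ‖∫ x in a..(c - η), F x‖ ≤ B)
    (hR : c + η ≤ b → ‖∫ x in (c + η)..b, F x‖ ≤ B) :
    ‖∫ x in a..b, F x‖ ≤ 2 * B + 2 * η := by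
  obtain ⟨hac, hcb⟩ := hc
  have hint : ∀ x y, a ≤ x → x ≤ y → y ≤ b → IntervalIntegrable F volume x y := by
    intro x y hx hxy hy
    apply ContinuousOn.intervalIntegrable
    rw [uIcc_of_le hxy]
    exact hF.mono (Icc_subset_Icc hx hy)
  set p := max a (c - η) with hp
  set q := min b (c + η) with hq
  have hap : a ≤ p := le_max_left _ _
  have hpc : p ≤ c := max_le hac (by linarith)
  have hcq : c ≤ q := le_min hcb (by linarith)
  have hqb : q ≤ b := min_le_left _ _
  have h2 : ∫ x in a..b, F x = (∫ x in a..p, F x) + (∫ x in p..q, F x) + ∫ x in q..b, F x := by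
    rw [intervalIntegral.integral_add_adjacent_intervals (hint a p le_rfl hap (by linarith))
      (hint p q hap (by linarith) hqb),
      intervalIntegral.integral_add_adjacent_intervals (hint a q le_rfl (by linarith) hqb)
      (hint q b (by linarith) hqb le_rfl)]
  have h3 : ‖∫ x in a..p, F x‖ ≤ B := by
    rcases le_total a (c - η) with h | h
    · rw [hp, max_eq_right h]
      exact hL h
    · rw [hp, max_eq_left h, intervalIntegral.integral_same, norm_zero]
      exact hB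
  have h4 : ‖∫ x in q..b, F x‖ ≤ B := by
    rcases le_total (c + η) b with h | h
    · rw [hq, min_eq_right h]
      exact hR h
    · rw [hq, min_eq_left h, intervalIntegral.integral_same, norm_zero]
      exact hB
  have h5 : ‖∫ x in p..q, F x‖ ≤ 2 * η := by
    have h6 : ‖∫ x in p..q, F x‖ ≤ 1 * |q - p| := by
      apply intervalIntegral.norm_integral_le_of_norm_le_const
      intro x hx
      rw [uIoc_of_le (by linarith)] at hx
      exact h1 x ⟨by linarith [hx.1], by linarith [hx.2]⟩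
    rw [one_mul, abs_of_nonneg (by linarith)] at h6
    have h7 : q ≤ c + η := min_le_right _ _
    have h8 : c - η ≤ p := le_max_right _ _
    linarith
  rw [h2]
  calc ‖(∫ x in a..p, F x) + (∫ x in p..q, F x) + ∫ x in q..b, F x‖
      ≤ ‖∫ x in a..p, F x‖ + ‖∫ x in p..q, F x‖ + ‖∫ x in q..b, F x‖ := norm_add₃_le
    _ ≤ 2 * B + 2 * η := by linarith

/-- First derivative test. -/
lemma first_test {ψ ψ1 ψ2 : ℝ → ℝ} {a b l : ℝ} (hab : a ≤ b) (hl : 0 < l)
    (h1 : ∀ x ∈ Icc a b, HasDerivAt ψ (ψ1 x) x)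
    (h2 : ∀ x ∈ Icc a b, HasDerivAt ψ1 (ψ2 x) x)
    (h2c : ContinuousOn ψ2 (Icc a b))
    (hpos : ∀ x ∈ Icc a b, 0 ≤ ψ2 x)
    (hlow : ∀ x ∈ Icc a b, l ≤ |ψ1 x|) :
    ‖∫ x in a..b, Complex.exp (Complex.I * (ψ x : ℂ))‖ ≤ 4 / l := by
  have hne : ∀ x ∈ Icc a b, ψ1 x ≠ 0 := by
    intro x hx h
    have := hlow x hx
    rw [h, abs_zero] at this
    linarith
  have hneC : ∀ x ∈ Icc a b, Complex.I * (ψ1 x : ℂ) ≠ 0 := by
    intro x hx
    exact mul_ne_zero Complex.I_ne_zero (by exact_mod_cast hne x hx)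
  have hu : uIcc a b = Icc a b := uIcc_of_le hab
  have hψc : ContinuousOn ψ (Icc a b) := fun x hx => (h1 x hx).continuousAt.continuousWithinAt
  have hψ1c : ContinuousOn ψ1 (Icc a b) := fun x hx => (h2 x hx).continuousAt.continuousWithinAt
  -- derivatives
  have hU : ∀ x ∈ uIcc a b, HasDerivAt (fun x => (Complex.I * (ψ1 x : ℂ))⁻¹)
      (-(Complex.I * (ψ2 x : ℂ)) / (Complex.I * (ψ1 x : ℂ)) ^ 2) x := by
    intro x hx
    rw [hu] at hx
    exact ((h2 x hx).ofReal_comp.const_mul Complex.I).inv (hneC x hx)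
  have hV : ∀ x ∈ uIcc a b, HasDerivAt (fun x => Complex.exp (Complex.I * (ψ x : ℂ)))
      (Complex.exp (Complex.I * (ψ x : ℂ)) * (Complex.I * (ψ1 x : ℂ))) x := by
    intro x hx
    rw [hu] at hx
    exact ((h1 x hx).ofReal_comp.const_mul Complex.I).cexp
  have hUc : ContinuousOn (fun x => (-(Complex.I * (ψ2 x : ℂ)) / (Complex.I * (ψ1 x : ℂ)) ^ 2)) (Icc a b) := by
    apply ContinuousOn.div
    · exact (continuousOn_const.mul (Complex.continuous_ofReal.comp_continuousOn h2c)).neg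
    · exact (continuousOn_const.mul (Complex.continuous_ofReal.comp_continuousOn hψ1c)).pow 2
    · intro x hx
      exact pow_ne_zero 2 (hneC x hx)
  have hVc : ContinuousOn (fun x => Complex.exp (Complex.I * (ψ x : ℂ)) * (Complex.I * (ψ1 x : ℂ))) (Icc a b) := by
    apply ContinuousOn.mul
    · exact (continuousOn_const.mul (Complex.continuous_ofReal.comp_continuousOn hψc)).cexp
    · exact continuousOn_const.mul (Complex.continuous_ofReal.comp_continuousOn hψ1c)
  have hparts := intervalIntegral.integral_mul_deriv_eq_deriv_mul hU hV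
    (by apply ContinuousOn.intervalIntegrable; rw [hu]; exact hUc)
    (by apply ContinuousOn.intervalIntegrable; rw [hu]; exact hVc)
  have hlhs : ∫ x in a..b, (Complex.I * (ψ1 x : ℂ))⁻¹ *
      (Complex.exp (Complex.I * (ψ x : ℂ)) * (Complex.I * (ψ1 x : ℂ))) =
      ∫ x in a..b, Complex.exp (Complex.I * (ψ x : ℂ)) := by
    apply intervalIntegral.integral_congr
    intro x hx
    rw [hu] at hx
    have h9 := hneC x hx
    change (Complex.I * (ψ1 x : ℂ))⁻¹ * (Complex.exp (Complex.I * (ψ x : ℂ)) * (Complex.I * (ψ1 x : ℂ))) =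
      Complex.exp (Complex.I * (ψ x : ℂ))
    rw [mul_comm, mul_assoc, mul_inv_cancel₀ h9, mul_one]
  rw [hlhs] at hparts
  rw [hparts]
  have hnorm : ∀ x ∈ Icc a b, ‖(Complex.I * (ψ1 x : ℂ))⁻¹ * Complex.exp (Complex.I * (ψ x : ℂ))‖ ≤ 1 / l := by
    intro x hx
    rw [norm_mul, Complex.norm_exp_I_mul_ofReal, mul_one, norm_inv, norm_mul, Complex.norm_I, one_mul,
      Complex.norm_real, Real.norm_eq_abs, ← one_div]
    exact one_div_le_one_div_of_le hl (hlow x hx)
  have hbd1 := hnorm a (left_mem_Icc.2 hab)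
  have hbd2 := hnorm b (right_mem_Icc.2 hab)
  -- the remaining integral
  have hint3 : ‖∫ x in a..b, (-(Complex.I * (ψ2 x : ℂ)) / (Complex.I * (ψ1 x : ℂ)) ^ 2) *
      Complex.exp (Complex.I * (ψ x : ℂ))‖ ≤ 2 / l := by
    have hg : ContinuousOn (fun x => ψ2 x / (ψ1 x) ^ 2) (Icc a b) := by
      apply ContinuousOn.div h2c (hψ1c.pow 2)
      intro x hx
      exact pow_ne_zero 2 (hne x hx)
    have hle : ‖∫ x in a..b, (-(Complex.I * (ψ2 x : ℂ)) / (Complex.I * (ψ1 x : ℂ)) ^ 2) *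
      Complex.exp (Complex.I * (ψ x : ℂ))‖ ≤ ∫ x in a..b, ψ2 x / (ψ1 x) ^ 2 := by
      apply intervalIntegral.norm_integral_le_of_norm_le hab
      · refine Eventually.of_forall (fun x hx => ?_)
        have hx' : x ∈ Icc a b := ⟨hx.1.le, hx.2⟩
        rw [norm_mul, Complex.norm_exp_I_mul_ofReal, mul_one, norm_div, norm_neg, norm_mul,
          Complex.norm_I, one_mul, norm_pow, norm_mul, Complex.norm_I, one_mul, Complex.norm_real,
          Complex.norm_real, Real.norm_eq_abs, Real.norm_eq_abs, sq_abs, abs_of_nonneg (hpos x hx')]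
      · apply ContinuousOn.intervalIntegrable
        rw [hu]
        exact hg
    refine hle.trans ?_
    have hFTC : ∫ x in a..b, ψ2 x / (ψ1 x) ^ 2 = (-(ψ1 b)⁻¹) - (-(ψ1 a)⁻¹) := by
      apply intervalIntegral.integral_eq_sub_of_hasDerivAt (f := fun x => -(ψ1 x)⁻¹)
      · intro x hx
        rw [hu] at hx
        have h9 := ((h2 x hx).inv (hne x hx)).neg
        have h10 : ψ2 x / (ψ1 x) ^ 2 = -(-ψ2 x / ψ1 x ^ 2) := by rw [neg_div, neg_neg]
        rw [h10]
        exact h9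
      · apply ContinuousOn.intervalIntegrable
        rw [hu]
        exact hg
    rw [hFTC]
    have h5 : ∀ x ∈ Icc a b, |(ψ1 x)⁻¹| ≤ 1 / l := by
      intro x hx
      rw [abs_inv, ← one_div]
      exact one_div_le_one_div_of_le hl (hlow x hx)
    have h6 := abs_le.1 (h5 a (left_mem_Icc.2 hab))
    have h7 := abs_le.1 (h5 b (right_mem_Icc.2 hab))
    have h8 : 2 / l = 1 / l + 1 / l := by ring
    linarith [h6.1, h6.2, h7.1, h7.2]
  calc _ ≤ ‖(Complex.I * (ψ1 b : ℂ))⁻¹ * Complex.exp (Complex.I * (ψ b : ℂ)) -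
        (Complex.I * (ψ1 a : ℂ))⁻¹ * Complex.exp (Complex.I * (ψ a : ℂ))‖ + ‖∫ x in a..b, (-(Complex.I * (ψ2 x : ℂ)) / (Complex.I * (ψ1 x : ℂ)) ^ 2) *
      Complex.exp (Complex.I * (ψ x : ℂ))‖ := norm_sub_le _ _
    _ ≤ (1 / l + 1 / l) + 2 / l := by
        apply add_le_add _ hint3
        exact (norm_sub_le _ _).trans (add_le_add hbd2 hbd1)
    _ = 4 / l := by ring

/-- A function with slope at least `m` on an interval has a crossing point. -/
lemma exists_cross {Q : ℝ → ℝ} {a b m : ℝ} (hab : a ≤ b)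
    (hQc : ContinuousOn Q (Icc a b))
    (hslope : ∀ x ∈ Icc a b, ∀ y ∈ Icc a b, x ≤ y → m * (y - x) ≤ Q y - Q x) :
    ∃ c ∈ Icc a b, (∀ x ∈ Icc a b, c < x → m * (x - c) ≤ Q x) ∧
      (∀ x ∈ Icc a b, x < c → Q x ≤ -(m * (c - x))) := by
  rcases le_total 0 (Q a) with h | h
  · refine ⟨a, left_mem_Icc.2 hab, ?_, ?_⟩
    · intro x hx _
      have := hslope a (left_mem_Icc.2 hab) x hx hx.1
      linarith
    · intro x hx hxa
      exact absurd hx.1 (not_le.2 hxa)
  rcases le_total (Q b) 0 with h' | h'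
  · refine ⟨b, right_mem_Icc.2 hab, ?_, ?_⟩
    · intro x hx hxb
      exact absurd hx.2 (not_le.2 hxb)
    · intro x hx _
      have := hslope x hx b (right_mem_Icc.2 hab) hx.2
      linarith
  obtain ⟨c, hc, hc0⟩ := intermediate_value_Icc hab hQc ⟨h, h'⟩
  refine ⟨c, hc, ?_, ?_⟩
  · intro x hx hcx
    have := hslope c hc x hx hcx.le
    linarith
  · intro x hx hxc
    have := hslope x hx c hc hxc.le
    linarith

/-- Second derivative test, positive second derivative. -/
lemma second_test_pos {ψ ψ1 ψ2 : ℝ → ℝ} {a b m : ℝ} (hab : a ≤ b) (hm : 0 < m)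
    (h1 : ∀ x ∈ Icc a b, HasDerivAt ψ (ψ1 x) x)
    (h2 : ∀ x ∈ Icc a b, HasDerivAt ψ1 (ψ2 x) x)
    (h2c : ContinuousOn ψ2 (Icc a b))
    (hlow : ∀ x ∈ Icc a b, m ≤ ψ2 x) :
    ‖∫ x in a..b, Complex.exp (Complex.I * (ψ x : ℂ))‖ ≤ 8 / Real.sqrt m := by
  have hψc : ContinuousOn ψ (Icc a b) := fun x hx => (h1 x hx).continuousAt.continuousWithinAt
  have hψ1c : ContinuousOn ψ1 (Icc a b) := fun x hx => (h2 x hx).continuousAt.continuousWithinAt
  have hslope : ∀ x ∈ Icc a b, ∀ y ∈ Icc a b, x ≤ y → m * (y - x) ≤ ψ1 y - ψ1 x := by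
    intro x hx y hy hxy
    rcases hxy.eq_or_lt with rfl | hlt
    · simp
    · have hsub : Icc x y ⊆ Icc a b := Icc_subset_Icc hx.1 hy.2
      obtain ⟨z, hz, hz2⟩ := exists_hasDerivAt_eq_slope ψ1 ψ2 hlt (hψ1c.mono hsub)
        (fun z hz => h2 z (hsub ⟨hz.1.le, hz.2.le⟩))
      have h3 := hlow z (hsub ⟨hz.1.le, hz.2.le⟩)
      rw [hz2, le_div_iff₀ (by linarith)] at h3
      exact h3
  obtain ⟨c, hc, hcR, hcL⟩ := exists_cross hab hψ1c hslope
  have hs := Real.sqrt_pos.2 hm
  have hss := Real.mul_self_sqrt hm.le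
  set η := 2 / Real.sqrt m with hη
  have hη0 : 0 < η := by positivity
  have hmη : 0 < m * η := by positivity
  have hB : 4 / (m * η) = 2 / Real.sqrt m := by
    rw [hη]
    field_simp
    nlinarith
  have hmain := split_bound (F := fun x => Complex.exp (Complex.I * (ψ x : ℂ))) (η := η)
    (B := 4 / (m * η)) (c := c)
    ((continuousOn_const.mul (Complex.continuous_ofReal.comp_continuousOn hψc)).cexp)
    (fun x _ => by rw [Complex.norm_exp_I_mul_ofReal]) hη0.le (by positivity) hc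
    (by
      intro hle
      have hsub : Icc a (c - η) ⊆ Icc a b := Icc_subset_Icc le_rfl (by linarith [hc.2])
      refine first_test hle hmη (fun x hx => h1 x (hsub hx)) (fun x hx => h2 x (hsub hx))
        (h2c.mono hsub) (fun x hx => hm.le.trans (hlow x (hsub hx))) ?_
      intro x hx
      have h3 := hcL x (hsub hx) (by linarith [hx.2])
      have h4 : m * η ≤ m * (c - x) := mul_le_mul_of_nonneg_left (by linarith [hx.2]) hm.le
      rw [abs_of_nonpos (by linarith)]
      linarith)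
    (by
      intro hle
      have hsub : Icc (c + η) b ⊆ Icc a b := Icc_subset_Icc (by linarith [hc.1]) le_rfl
      refine first_test hle hmη (fun x hx => h1 x (hsub hx)) (fun x hx => h2 x (hsub hx))
        (h2c.mono hsub) (fun x hx => hm.le.trans (hlow x (hsub hx))) ?_
      intro x hx
      have h3 := hcR x (hsub hx) (by linarith [hx.1])
      have h4 : m * η ≤ m * (x - c) := mul_le_mul_of_nonneg_left (by linarith [hx.1]) hm.le
      rw [abs_of_nonneg (by linarith)]
      linarith)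
  refine hmain.trans (le_of_eq ?_)
  rw [hB, hη]
  ring

lemma norm_integral_conj (ψ : ℝ → ℝ) (a b : ℝ) :
    ‖∫ x in a..b, Complex.exp (Complex.I * ((-ψ x : ℝ) : ℂ))‖ =
      ‖∫ x in a..b, Complex.exp (Complex.I * (ψ x : ℂ))‖ := by
  have h : ∀ x, Complex.exp (Complex.I * ((-ψ x : ℝ) : ℂ)) =
      (starRingEnd ℂ) (Complex.exp (Complex.I * (ψ x : ℂ))) := by
    intro x
    rw [← Complex.exp_conj]
    congr 1
    simp
  simp_rw [h]
  rw [intervalIntegral.intervalIntegral_eq_integral_uIoc,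
    intervalIntegral.intervalIntegral_eq_integral_uIoc, norm_smul, norm_smul, integral_conj,
    RCLike.norm_conj]

/-- Second derivative test, negative second derivative. -/
lemma second_test_neg {ψ ψ1 ψ2 : ℝ → ℝ} {a b m : ℝ} (hab : a ≤ b) (hm : 0 < m)
    (h1 : ∀ x ∈ Icc a b, HasDerivAt ψ (ψ1 x) x)
    (h2 : ∀ x ∈ Icc a b, HasDerivAt ψ1 (ψ2 x) x)
    (h2c : ContinuousOn ψ2 (Icc a b))
    (hlow : ∀ x ∈ Icc a b, ψ2 x ≤ -m) :
    ‖∫ x in a..b, Complex.exp (Complex.I * (ψ x : ℂ))‖ ≤ 8 / Real.sqrt m := by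
  rw [← norm_integral_conj]
  exact second_test_pos (ψ := fun x => -ψ x) (ψ1 := fun x => -ψ1 x) (ψ2 := fun x => -ψ2 x) hab hm
    (fun x hx => (h1 x hx).neg) (fun x hx => (h2 x hx).neg) h2c.neg
    (fun x hx => by linarith [hlow x hx])

/-- Third order test: a weight times the second derivative has slope at least `m`. -/
lemma third_test {ψ ψ1 ψ2 W : ℝ → ℝ} {a b m η : ℝ} (hab : a ≤ b) (hm : 0 < m) (hη : 0 < η)
    (h1 : ∀ x ∈ Icc a b, HasDerivAt ψ (ψ1 x) x)
    (h2 : ∀ x ∈ Icc a b, HasDerivAt ψ1 (ψ2 x) x)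
    (h2c : ContinuousOn ψ2 (Icc a b))
    (hWc : ContinuousOn W (Icc a b))
    (hW0 : ∀ x ∈ Icc a b, 0 < W x) (hW1 : ∀ x ∈ Icc a b, W x ≤ 1)
    (hslope : ∀ x ∈ Icc a b, ∀ y ∈ Icc a b, x ≤ y → m * (y - x) ≤ W y * ψ2 y - W x * ψ2 x) :
    ‖∫ x in a..b, Complex.exp (Complex.I * (ψ x : ℂ))‖ ≤
      2 * (8 / Real.sqrt (m * η)) + 2 * η := by
  have hψc : ContinuousOn ψ (Icc a b) := fun x hx => (h1 x hx).continuousAt.continuousWithinAt
  obtain ⟨c, hc, hcR, hcL⟩ := exists_cross (Q := fun x => W x * ψ2 x) hab (hWc.mul h2c) hslope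
  have hmη : 0 < m * η := by positivity
  apply split_bound (F := fun x => Complex.exp (Complex.I * (ψ x : ℂ))) (η := η)
    (B := 8 / Real.sqrt (m * η)) (c := c)
    ((continuousOn_const.mul (Complex.continuous_ofReal.comp_continuousOn hψc)).cexp)
    (fun x _ => by rw [Complex.norm_exp_I_mul_ofReal]) hη.le (by positivity) hc
  · intro hle
    have hsub : Icc a (c - η) ⊆ Icc a b := Icc_subset_Icc le_rfl (by linarith [hc.2])
    refine second_test_neg hle hmη (fun x hx => h1 x (hsub hx)) (fun x hx => h2 x (hsub hx))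
        (h2c.mono hsub) ?_
    intro x hx
    have h3 := hcL x (hsub hx) (by linarith [hx.2])
    have h4 : m * η ≤ m * (c - x) := mul_le_mul_of_nonneg_left (by linarith [hx.2]) hm.le
    have h5 := hW0 x (hsub hx)
    have h6 := hW1 x (hsub hx)
    by_contra hcon
    push Not at hcon
    rcases le_total 0 (ψ2 x) with h7 | h7
    · have := mul_nonneg h5.le h7
      linarith
    · nlinarith
  · intro hle
    have hsub : Icc (c + η) b ⊆ Icc a b := Icc_subset_Icc (by linarith [hc.1]) le_rfl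
    refine second_test_pos hle hmη (fun x hx => h1 x (hsub hx)) (fun x hx => h2 x (hsub hx))
        (h2c.mono hsub) ?_
    intro x hx
    have h3 := hcR x (hsub hx) (by linarith [hx.1])
    have h4 : m * η ≤ m * (x - c) := mul_le_mul_of_nonneg_left (by linarith [hx.1]) hm.le
    have h5 := hW0 x (hsub hx)
    have h6 := hW1 x (hsub hx)
    by_contra hcon
    push Not at hcon
    rcases le_total 0 (ψ2 x) with h7 | h7
    · nlinarith
    · have := mul_nonpos_of_nonneg_of_nonpos h5.le h7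
      linarith

end Pool.Agent.Helper276.VdC
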